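import Pool.Agent.H525.MV.Stm

/-!
# Values of polynomials in several variables (helper525): the statement SZ
-/

set_option autoImplicit false

namespace Pool.Agent.H553.MV

open Finset MvPolynomial Pool.Agent.H525.MV
open Pool.Agent.H525.NF (Box mem_Box)

section general

variable {R : Type} [CommRing R] [IsDomain R] [DecidableEq R]

theorem sz_fin {n : ℕ} {p : MvPolynomial (Fin n) R} (hp : p ≠ 0) (S : Fin n → Finset R) (W : ℕ)
    (hS : ∀ i, (S i).card = W) :
    ((Fintype.piFinset S).filter (fun x => eval x p = 0)).card ≤ p.totalDegree * W ^ (n - 1) := by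
  have h := schwartz_zippel_sup_sum hp S
  rcases Nat.eq_zero_or_pos n with hn | hn
  · subst hn
    simp only [Finset.univ_eq_empty, Finset.prod_empty, div_one, Finset.sum_empty] at h
    have h1 : p.support.sup (fun _ => (0 : ℚ≥0)) = 0 :=
      le_antisymm (Finset.sup_le fun _ _ => le_rfl) (zero_le)
    rw [h1] at h
    have h2 : ((Fintype.piFinset S).filter (fun x => eval x p = 0)).card = 0 := by
      exact_mod_cast le_antisymm h (zero_le)
    rw [h2]
    exact Nat.zero_le _
  · rcases Nat.eq_zero_or_pos W with hW | hW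
    · have h1 : Fintype.piFinset S = ∅ := by
        have h2 : S ⟨0, hn⟩ = ∅ := Finset.card_eq_zero.1 ((hS _).trans hW)
        rw [Fintype.piFinset_eq_empty]
        exact ⟨_, h2⟩
      rw [h1]
      simp
    · have hW0 : (0 : ℚ≥0) < W := by exact_mod_cast hW
      have h1 : p.support.sup (fun s => ∑ i, ((s i : ℚ≥0) / (S i).card)) ≤
          (p.totalDegree : ℚ≥0) / W := by
        refine Finset.sup_le fun s hs => ?_
        have h2 : ∑ i, ((s i : ℚ≥0) / (S i).card) = ((∑ i, s i : ℕ) : ℚ≥0) / W := by
          rw [Nat.cast_sum, Finset.sum_div]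
          exact Finset.sum_congr rfl fun i _ => by rw [hS i]
        rw [h2]
        have h3 : ∑ i, s i ≤ p.totalDegree := by
          have h4 := le_totalDegree hs
          rwa [Finsupp.sum_fintype _ _ (fun _ => rfl)] at h4
        gcongr
      have h5 : (∏ i, ((S i).card : ℚ≥0)) = (W : ℚ≥0) ^ n := by
        rw [Finset.prod_congr rfl fun i _ => by rw [hS i], Finset.prod_const, Finset.card_univ,
          Fintype.card_fin]
      rw [h5] at h
      have h6 := h.trans h1
      rw [div_le_iff₀ (pow_pos hW0 n)] at h6
      have h7 : (p.totalDegree : ℚ≥0) / W * (W : ℚ≥0) ^ n =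
          ((p.totalDegree * W ^ (n - 1) : ℕ) : ℚ≥0) := by
        obtain ⟨m, rfl⟩ : ∃ m, n = m + 1 := ⟨n - 1, by omega⟩
        push_cast
        rw [pow_succ]
        field_simp
      rw [h7] at h6
      exact_mod_cast h6

theorem sz_gen {ι : Type} [Fintype ι] {p : MvPolynomial ι R} (hp : p ≠ 0) (S : ι → Finset R)
    (W : ℕ) (hS : ∀ i, (S i).card = W) (T : Finset (ι → R))
    (hT : ∀ x ∈ T, (∀ i, x i ∈ S i) ∧ eval x p = 0) :
    T.card ≤ p.totalDegree * W ^ (Fintype.card ι - 1) := by
  classical
  obtain ⟨e⟩ : Nonempty (ι ≃ Fin (Fintype.card ι)) := ⟨Fintype.equivFin ι⟩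
  have hp' : rename e p ≠ 0 := fun h => hp (rename_injective _ e.injective (by rw [h, map_zero]))
  have h1 := sz_fin hp' (fun j => S (e.symm j)) W (fun j => hS _)
  have h2 : T.card ≤ ((Fintype.piFinset fun j => S (e.symm j)).filter
      (fun x => eval x (rename e p) = 0)).card := by
    apply Finset.card_le_card_of_injOn (fun x j => x (e.symm j))
    · intro x hx
      obtain ⟨a, b⟩ := hT x (Finset.mem_coe.1 hx)
      rw [Finset.mem_coe, Finset.mem_filter, Fintype.mem_piFinset]
      refine ⟨fun j => a _, ?_⟩
      rw [eval_rename]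
      have h3 : (fun j => x (e.symm j)) ∘ e = x := by
        funext i
        simp
      rw [h3]
      exact b
    · intro x _ y _ h
      funext i
      have := congrFun h (e i)
      simpa using this
  refine h2.trans (h1.trans ?_)
  exact Nat.mul_le_mul_right _ (totalDegree_rename_le _ _)

end general

theorem red_ne_zero {ι : Type} {F : MvPolynomial ι ℤ} (hF : Irreducible F)
    (hd : 0 < F.totalDegree) {p : ℕ} (hp : p.Prime) : red F p ≠ 0 := by
  intro h
  unfold red at h
  rw [← C_dvd_iff_zmod] at h
  obtain ⟨G, hG⟩ := h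
  rcases hF.isUnit_or_isUnit hG with h1 | h1
  · have h2 := (isUnit_iff_totalDegree_of_isReduced.1 h1).1
    rw [coeff_zero_C] at h2
    have h3 := Int.isUnit_iff.1 h2
    have h4 := hp.two_le
    omega
  · have h2 := (isUnit_iff_totalDegree_of_isReduced.1 h1).2
    have h3 : F.totalDegree ≤ 0 := by
      rw [hG]
      refine (totalDegree_mul _ _).trans ?_
      rw [h2, totalDegree_C]
    omega

theorem t_SZ : S_SZ := by
  intro ι _ F
  constructor
  · intro hF hd p hp
    classical
    have : Fact p.Prime := ⟨hp⟩
    have h1 := red_ne_zero hF hd hp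
    have : Fintype {x : ι → ZMod p // eval x (red F p) = 0} := Fintype.ofFinite _
    have h2 : zc F p = (Finset.univ.filter fun x : ι → ZMod p => eval x (red F p) = 0).card := by
      unfold zc
      rw [Nat.card_eq_fintype_card, Fintype.card_subtype]
    rw [h2]
    have h3 := sz_gen h1 (fun _ => (Finset.univ : Finset (ZMod p))) p
      (fun _ => by rw [Finset.card_univ, ZMod.card])
      (Finset.univ.filter fun x : ι → ZMod p => eval x (red F p) = 0)
      (fun x hx => ⟨fun i => Finset.mem_univ _, (Finset.mem_filter.1 hx).2⟩)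
    refine h3.trans (Nat.mul_le_mul_right _ ?_)
    exact Finset.sup_mono (support_map_subset (Int.castRingHom (ZMod p)) F)
  · intro hF a W
    refine sz_gen hF (fun i => Finset.Ico (a i) (a i + W)) W (fun i => by simp) _ fun x hx => ?_
    rw [Finset.mem_filter, mem_Box] at hx
    exact ⟨fun i => Finset.mem_Ico.2 (hx.1 i), hx.2⟩

end Pool.Agent.H553.MV
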